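import Pool.Agent.Work.MP_34725c_ag.TwMono

/-! Rigid torsion-free modules are free over towers of simple extensions, deformations of
truncated polynomial rings, and everything they cover faithfully flatly. -/

set_option autoImplicit false

namespace Pool.Agent.Work.MP_34725c_ag.Parked.Tower

open Polynomial

/-- Finite `k`-algebras built from `k` by adjoining `y` with `y ^ a = 0`, or with `y ^ q = c`
where `q` is a power of the characteristic exponent of `k`. -/
inductive Trunc (k : Type) [Field k] : ∀ (A : Type) [CommRing A] [Algebra k A], Prop
  | field : Trunc k k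
  | step (A : Type) [CommRing A] [Algebra k A] (a : ℕ) (c : A) : Trunc k A → 0 < a →
      (c = 0 ∨ ∃ e : ℕ, a = ringExpChar k ^ e) → Trunc k (AdjoinRoot (X ^ a - C c))

/-- The least class of rings containing the Noetherian local rings `T` with `T / (x)` in `Trunc`
for a non-zero-divisor `x`, closed under `S ↦ S[y] / (g)` for distinguished polynomials `g`,
and closed under faithfully flat descent to Noetherian local rings of positive depth. -/
inductive IsTower : ∀ (R : Type) [CommRing R], Prop
  | base (T k A : Type) [CommRing T] [IsLocalRing T] [IsNoetherianRing T] [Field k] [CommRing A]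
      [Algebra k A] (x : T) : x ∈ nonZeroDivisors T → Nonempty ((T ⧸ Ideal.span {x}) ≃+* A) →
      Trunc k A → IsTower T
  | step (S : Type) [CommRing S] (g : S[X]) : IsTower S → g.Monic → 0 < g.natDegree →
      (∀ i < g.natDegree, ¬ IsUnit (g.coeff i)) → IsTower (AdjoinRoot g)
  | descend (R T : Type) [CommRing R] [IsLocalRing R] [IsNoetherianRing R] [CommRing T]
      [Algebra R T] [Module.FaithfullyFlat R T] (x : R) : x ∈ nonZeroDivisors R → ¬ IsUnit x →
      IsTower T → IsTower R

open Pool.Agent.Work.MP_34725c_ag.Tw

theorem Trunc.xp {k : Type} [Field k] {A : Type} [CommRing A] [Algebra k A] (h : Trunc k A) :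
    XP k A := by
  induction h with
  | field => exact XP.field k
  | step A a c _ ha hc ih => exact ih.step ha hc

theorem IsTower.hw {R : Type} [CommRing R] (h : IsTower R) :
    ∃ (_ : IsLocalRing R) (_ : IsNoetherianRing R) (x : R), Par R x ∧ HW R := by
  induction h with
  | base T k A x hx e h =>
    obtain ⟨e⟩ := e
    exact ⟨inferInstance, inferInstance, x, h.xp.par hx e, h.xp.hw hx e⟩
  | step S g _ hg hd hm ih =>
    obtain ⟨_, _, x, hx, hS⟩ := ih
    exact ⟨isLocalRing_adjoin hg hd hm, inferInstance, _,
      (have := isLocalRing_adjoin hg hd hm; hx.adjoin hg hm), hS.adjoin hx hg hd hm⟩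
  | descend R T x hx hu _ ih =>
    obtain ⟨_, _, y, hy, hT⟩ := ih
    exact ⟨inferInstance, inferInstance, x, hy.descend hx hu, hT.descend⟩

/-- Over a domain in the class `IsTower`, every finitely generated torsion-free module all of whose
self-extensions split is free. -/
theorem result :
    ∀ (R : Type) [CommRing R] [IsDomain R], IsTower R →
    ∀ (M : Type) [AddCommGroup M] [Module R M],
      Module.Finite R M → NoZeroSMulDivisors R M →
      (∀ (E : Type) [AddCommGroup E] [Module R E] (f : M →ₗ[R] E) (g : E →ₗ[R] M),
         Function.Injective f → Function.Surjective g → Function.Exact f g →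
         ∃ s : M →ₗ[R] E, g.comp s = LinearMap.id) →
      Module.Free R M := by
  intro R _ _ h M _ _ hM _ hr
  obtain ⟨_, _, _, -, hw⟩ := h.hw
  have := hw M hM hasRank_of_domain hr
  exact Module.free_of_flat_of_isLocalRing

end Pool.Agent.Work.MP_34725c_ag.Parked.Tower
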